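import Pool.Agent.Helper25.HL.Goals3

/-!
# Project HL: the matrix acts on the level norm
-/

set_option autoImplicit false

open Filter Topology

noncomputable section

namespace Pool.Agent.Helper68.HL

open Pool.Agent.Helper25.HL

/-- HA: the matrix acts on the level norm. -/
theorem ha (h0 : S_H0) (h1 : S_H1) : S_HA := by
  intro n N F p q σ J r z hr hn
  have e : ∀ w : Fin N → (Fin p → ℂ) × (Fin q → ℂ), ∑ i, (lnm σ J r (w i)) ^ 2 =
      ∑ j ∈ Finset.range (J + 1), (4 : ℝ) ^ j / 4 ^ J * ∑ i, (Kj σ r j (w i)) ^ 2 := by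
    intro w
    have : ∀ i, (lnm σ J r (w i)) ^ 2 =
        ∑ j ∈ Finset.range (J + 1), (4 : ℝ) ^ j / 4 ^ J * (Kj σ r j (w i)) ^ 2 := fun i =>
      Real.sq_sqrt (Finset.sum_nonneg fun j _ => by positivity)
    simp only [this]
    rw [Finset.sum_comm]
    exact Finset.sum_congr rfl fun j _ => (Finset.mul_sum _ _ _).symm
  rw [e, e]
  obtain ⟨w, hw⟩ : ∃ w : Fin N → (Fin p → ℂ) × (Fin q → ℂ),
    w = fun i => ∑ j, F.a j i • z j := ⟨_, rfl⟩
  obtain ⟨T, hT⟩ : ∃ T : ℕ → ℝ, T = fun j => ∑ i, (Kj σ r j (w i)) ^ 2 := ⟨_, rfl⟩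
  obtain ⟨S, hS⟩ : ∃ S : ℕ → ℝ, S = fun j => ∑ i, (Kj σ r j (z i)) ^ 2 := ⟨_, rfl⟩
  have hSnn : ∀ j, 0 ≤ S j := fun j => by
    rw [hS]
    exact Finset.sum_nonneg fun i _ => by positivity
  have a0 : ∀ v : (Fin p → ℂ) × (Fin q → ℂ), (Kj σ r 0 v) ^ 2 = pq2 v := fun v => by
    unfold Kj
    rw [if_pos rfl, Real.sq_sqrt (pq2_nn v)]
  have t0 : T 0 ≤ 4 * S 0 := by
    rw [hT, hS]
    simp only [a0]
    rw [hw]
    exact h0 n N F p q z
  have t1 : T 1 ≤ 4 * S 0 := by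
    refine le_trans ?_ t0
    rw [hT]
    refine Finset.sum_le_sum fun i _ => ?_
    rw [a0]
    have b1 : Kj σ r 1 (w i) = KK σ (r 1) (w i) := by
      unfold Kj
      rw [if_neg one_ne_zero]
    rw [b1]
    calc (KK σ (r 1) (w i)) ^ 2 ≤ (Real.sqrt (pq2 (w i))) ^ 2 :=
          pow_le_pow_left₀ (KK_nn _ _ _) (KK_le_e2 _ _ _) 2
      _ = _ := Real.sq_sqrt (pq2_nn _)
  have t2 : ∀ j, j < J → T (j + 1) ≤ 4 * S j := by
    intro j hj
    by_cases hj0 : j = 0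
    · rw [hj0]
      exact t1
    · have b1 : ∀ v, Kj σ r (j + 1) v = KK σ (r (j + 1)) v := fun v => by
        unfold Kj
        rw [if_neg (Nat.succ_ne_zero j)]
      have b2 : ∀ v, Kj σ r j v = KK σ (r j) v := fun v => by
        unfold Kj
        rw [if_neg hj0]
      rw [hT, hS]
      simp only [b1, b2]
      rw [hw]
      exact h1 n N F p q σ z (r j) (r (j + 1)) (hr j) (hr (j + 1)) (hn j (by omega) hj)
  have g1 : ∑ j ∈ Finset.range (J + 1), (4 : ℝ) ^ j / 4 ^ J * T j ≤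
      20 * ∑ j ∈ Finset.range (J + 1), (4 : ℝ) ^ j / 4 ^ J * S j := by
    have c1 : ∑ j ∈ Finset.range (J + 1), (4 : ℝ) ^ j / 4 ^ J * T j ≤
        16 * ∑ j ∈ Finset.range J, (4 : ℝ) ^ j / 4 ^ J * S j + 4 * ((4 : ℝ) ^ 0 / 4 ^ J * S 0) := by
      rw [Finset.sum_range_succ', Finset.mul_sum]
      refine add_le_add (Finset.sum_le_sum fun j hj => ?_) ?_
      · have := t2 j (Finset.mem_range.1 hj)
        calc (4 : ℝ) ^ (j + 1) / 4 ^ J * T (j + 1) ≤ (4 : ℝ) ^ (j + 1) / 4 ^ J * (4 * S j) := by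
              gcongr
          _ = _ := by ring
      · calc (4 : ℝ) ^ 0 / 4 ^ J * T 0 ≤ (4 : ℝ) ^ 0 / 4 ^ J * (4 * S 0) := by gcongr
          _ = _ := by ring
    have c2 : ∑ j ∈ Finset.range J, (4 : ℝ) ^ j / 4 ^ J * S j ≤
        ∑ j ∈ Finset.range (J + 1), (4 : ℝ) ^ j / 4 ^ J * S j := by
      rw [Finset.sum_range_succ]
      have := hSnn J
      have : 0 ≤ (4 : ℝ) ^ J / 4 ^ J * S J := by positivity
      linarith
    have c3 : (4 : ℝ) ^ 0 / 4 ^ J * S 0 ≤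
        ∑ j ∈ Finset.range (J + 1), (4 : ℝ) ^ j / 4 ^ J * S j := by
      refine Finset.single_le_sum (f := fun j => (4 : ℝ) ^ j / 4 ^ J * S j)
        (fun j _ => ?_) (Finset.mem_range.2 (Nat.succ_pos J))
      have := hSnn j
      positivity
    linarith
  rw [hT, hS, hw] at g1
  exact g1

end Pool.Agent.Helper68.HL
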